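import Pool.Agent.Lib.MP_688fd0_co.TE.H20.Rnd

/-! Numerical facts for RNDF (port of the file of helper20 for RND). -/

namespace Pool.Agent.Lib.MP_688fd0_co.TF.H74

open Pool.Agent.Lib.MP_688fd0_co.TE

/-- Numerical facts for RND. -/
structure RNF (X b k T n : ℝ) : Prop where
  X1 : 10 ^ 6 ≤ X
  k1 : 1 ≤ k
  T1 : 1 ≤ T
  kX : 10 ^ 6 * k ≤ X
  TX : 10 ^ 6 * T ≤ X
  bX : X ^ 50000 ≤ b
  bn : b ≤ n

variable {X b k T n : ℝ}

theorem RNF.Xpos (h : RNF X b k T n) : 0 < X := by have := h.X1; linarith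

theorem RNF.bpos (h : RNF X b k T n) : 0 < b := lt_of_lt_of_le (pow_pos h.Xpos _) h.bX

theorem RNF.pw (h : RNF X b k T n) {i j : ℕ} (hij : i ≤ j) : X ^ i ≤ X ^ j :=
  pow_le_pow_right₀ (by have := h.X1; linarith) hij

theorem RNF.kT (h : RNF X b k T n) : 10 ^ 12 * (k * T) ≤ X ^ 2 := by
  have h1 := mul_le_mul h.kX h.TX (by have := h.T1; linarith) h.Xpos.le
  calc 10 ^ 12 * (k * T) = (10 ^ 6 * k) * (10 ^ 6 * T) := by ring
    _ ≤ X * X := h1
    _ = X ^ 2 := by ring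

/-- Comparison: `c ≤ X ^ i` gives `c / X ^ j ≤ 1 / X ^ l` if `i + l ≤ j`. -/
theorem RNF.cmp (h : RNF X b k T n) {c : ℝ} {i j l : ℕ} (hc : c ≤ X ^ i) (hij : i + l ≤ j) :
    c / X ^ j ≤ 1 / X ^ l := by
  have hX := h.Xpos
  rw [div_le_div_iff₀ (pow_pos hX _) (pow_pos hX _), one_mul]
  calc c * X ^ l ≤ X ^ i * X ^ l := mul_le_mul_of_nonneg_right hc (pow_pos hX _).le
    _ = X ^ (i + l) := by rw [pow_add]
    _ ≤ X ^ j := h.pw hij

/-- Division by `b`. -/
theorem RNF.cmpb (h : RNF X b k T n) {c : ℝ} {i l : ℕ} (hc : c ≤ X ^ i) (hc0 : 0 ≤ c)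
    (hij : i + l ≤ 50000) : c / b ≤ 1 / X ^ l := by
  have h1 : c / b ≤ c / X ^ 50000 := div_le_div_of_nonneg_left hc0 (pow_pos h.Xpos _) h.bX
  exact le_trans h1 (h.cmp hc hij)

theorem RNF.q6010 (h : RNF X b k T n) : k * X ^ 6010 / b ≤ 1 / X ^ 40000 := by
  apply h.cmpb (i := 6011) _ (by have := h.k1; have := h.Xpos; positivity) (by norm_num)
  have h1 : k ≤ X := by have := h.kX; have := h.k1; linarith
  calc k * X ^ 6010 ≤ X * X ^ 6010 := mul_le_mul_of_nonneg_right h1 (pow_pos h.Xpos _).le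
    _ = X ^ 6011 := by ring

/-! ### Means -/

theorem RNF.mean1 (h : RNF X b k T n) {p Λ SE : ℝ} (hp : 0 ≤ p * Λ) (hpΛ : p * Λ ≤ 1 / X ^ 180)
    (hSE : SE ≤ 4 * k) (hSE0 : 0 ≤ SE) : T * (3 * p * Λ * SE) ≤ 1 / (2 * X ^ 150) := by
  have hT := h.T1
  have hk := h.k1
  have hX := h.Xpos
  have h1 : T * (3 * p * Λ * SE) ≤ T * (3 * (1 / X ^ 180) * (4 * k)) := by
    have : 3 * p * Λ * SE ≤ 3 * (1 / X ^ 180) * (4 * k) := by
      have e : 3 * p * Λ * SE = 3 * (p * Λ) * SE := by ring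
      rw [e]
      apply mul_le_mul (by linarith) hSE hSE0 (by positivity)
    exact mul_le_mul_of_nonneg_left this (by linarith)
  have h2 : T * (3 * (1 / X ^ 180) * (4 * k)) = (12 * (k * T)) / X ^ 180 := by field_simp; ring
  have h3 : (24 * (k * T)) / X ^ 180 ≤ 1 / X ^ 150 :=
    h.cmp (i := 2) (by have := h.kT; have : 0 ≤ k * T := by positivity
                       linarith) (by norm_num)
  have h4 : 1 / (2 * X ^ 150) = (1 / X ^ 150) / 2 := by field_simp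
  have h5 : (24 * (k * T)) / X ^ 180 = 2 * ((12 * (k * T)) / X ^ 180) := by ring
  rw [h4]
  rw [h2] at h1
  linarith

theorem RNF.mean2 (h : RNF X b k T n) {p SV : ℝ} (hp0 : 0 ≤ p) (hp : p ≤ 1 / X ^ 990)
    (hSV : SV ≤ 1) (hSV0 : 0 ≤ SV) : T * (6 * p * SV) ≤ 1 / (2 * X ^ 900) := by
  have hT := h.T1
  have hX := h.Xpos
  have h1 : T * (6 * p * SV) ≤ T * (6 * (1 / X ^ 990) * 1) := by
    have : 6 * p * SV ≤ 6 * (1 / X ^ 990) * 1 :=
      mul_le_mul (by linarith) hSV hSV0 (by positivity)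
    exact mul_le_mul_of_nonneg_left this (by linarith)
  have h2 : T * (6 * (1 / X ^ 990) * 1) = (6 * T) / X ^ 990 := by field_simp
  have h3 : (12 * T) / X ^ 990 ≤ 1 / X ^ 900 :=
    h.cmp (i := 1) (by have := h.TX; rw [pow_one]; linarith) (by norm_num)
  have h4 : 1 / (2 * X ^ 900) = (1 / X ^ 900) / 2 := by field_simp
  have h5 : (12 * T) / X ^ 990 = 2 * ((6 * T) / X ^ 990) := by ring
  rw [h4]
  rw [h2] at h1
  linarith

theorem RNF.mean3 (h : RNF X b k T n) {p SV : ℝ} (hp0 : 0 ≤ p) (hp : p ≤ 1 / X ^ 990)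
    (hSV0 : 0 ≤ SV) : T * (6 * p * SV) ≤ SV / (2000 * k) := by
  have hT := h.T1
  have hk := h.k1
  have hX := h.Xpos
  have h1 : T * (6 * p) * (2000 * k) ≤ 1 := by
    have e1 : T * (6 * p) * (2000 * k) ≤ T * (6 * (1 / X ^ 990)) * (2000 * k) := by
      apply mul_le_mul_of_nonneg_right _ (by positivity)
      exact mul_le_mul_of_nonneg_left (by linarith) (by linarith)
    have e2 : T * (6 * (1 / X ^ 990)) * (2000 * k) = (12000 * (k * T)) / X ^ 990 := by
      field_simp; ring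
    have e3 : (12000 * (k * T)) / X ^ 990 ≤ 1 / X ^ 0 :=
      h.cmp (i := 2) (by have := h.kT; have : 0 ≤ k * T := by positivity
                         linarith) (by norm_num)
    rw [pow_zero, div_one] at e3
    linarith
  rw [le_div_iff₀ (by positivity)]
  calc T * (6 * p * SV) * (2000 * k) = (T * (6 * p) * (2000 * k)) * SV := by ring
    _ ≤ 1 * SV := mul_le_mul_of_nonneg_right h1 hSV0
    _ = SV := one_mul _

theorem RNF.mean4 (h : RNF X b k T n) {p Λ SV SE : ℝ} (hp0 : 0 ≤ p) (hp : p ≤ 1 / X ^ 990)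
    (hp' : 0 ≤ p * Λ) (hpΛ : p * Λ ≤ 1 / X ^ 180) (hSV : SV ≤ 4) (hSV0 : 0 ≤ SV)
    (hSE : SE ≤ 8 * k) (hSE0 : 0 ≤ SE) :
    T * (6 * p * SV + 3 * p * Λ * SE) ≤ 1 / X ^ 160 := by
  have hT := h.T1
  have hk := h.k1
  have hX := h.Xpos
  have a1 : 6 * p * SV ≤ 6 * (1 / X ^ 990) * 4 :=
    mul_le_mul (by linarith) hSV hSV0 (by positivity)
  have a2 : 3 * p * Λ * SE ≤ 3 * (1 / X ^ 180) * (8 * k) := by
    have e : 3 * p * Λ * SE = 3 * (p * Λ) * SE := by ring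
    rw [e]
    exact mul_le_mul (by linarith) hSE hSE0 (by positivity)
  have a3 : T * (6 * p * SV + 3 * p * Λ * SE) ≤
      T * (6 * (1 / X ^ 990) * 4 + 3 * (1 / X ^ 180) * (8 * k)) :=
    mul_le_mul_of_nonneg_left (by linarith) (by linarith)
  have a4 : T * (6 * (1 / X ^ 990) * 4 + 3 * (1 / X ^ 180) * (8 * k)) =
      (24 * T) / X ^ 990 + (24 * (k * T)) / X ^ 180 := by field_simp; ring
  have a5 : (24 * T) / X ^ 990 ≤ 1 / X ^ 170 :=
    h.cmp (i := 1) (by have := h.TX; rw [pow_one]; linarith) (by norm_num)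
  have a6 : (24 * (k * T)) / X ^ 180 ≤ 1 / X ^ 170 :=
    h.cmp (i := 2) (by have := h.kT; have : 0 ≤ k * T := by positivity
                       linarith) (by norm_num)
  have a7 : 2 / X ^ 170 ≤ 1 / X ^ 160 :=
    h.cmp (i := 1) (by have := h.X1; rw [pow_one]; linarith) (by norm_num)
  have a8 : 2 / X ^ 170 = 1 / X ^ 170 + 1 / X ^ 170 := by ring
  rw [a4] at a3
  linarith

/-! ### Exponents -/

theorem RNF.exp1 (h : RNF X b k T n) :
    X ≤ 1 / (2 * X ^ 150) / (4 * (T * (8 * k * X ^ 6010 / b))) := by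
  have hT := h.T1
  have hk := h.k1
  have hX := h.Xpos
  have hb := h.bpos
  have e : 1 / (2 * X ^ 150) / (4 * (T * (8 * k * X ^ 6010 / b))) =
      b / (64 * (k * T) * X ^ 6160) := by field_simp; ring
  rw [e, le_div_iff₀ (by positivity)]
  have h1 : 64 * (k * T) ≤ X ^ 2 := by
    have := h.kT
    have : 0 ≤ k * T := by positivity
    linarith
  calc X * (64 * (k * T) * X ^ 6160) ≤ X * (X ^ 2 * X ^ 6160) := by
        apply mul_le_mul_of_nonneg_left _ hX.le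
        exact mul_le_mul_of_nonneg_right h1 (pow_pos hX _).le
    _ = X ^ 6163 := by ring
    _ ≤ X ^ 50000 := h.pw (by norm_num)
    _ ≤ b := h.bX

theorem RNF.exp2 (h : RNF X b k T n) : X ≤ 1 / (2 * X ^ 900) / (4 * (T * (4 / b))) := by
  have hT := h.T1
  have hX := h.Xpos
  have hb := h.bpos
  have e : 1 / (2 * X ^ 900) / (4 * (T * (4 / b))) = b / (32 * T * X ^ 900) := by
    field_simp; ring
  rw [e, le_div_iff₀ (by positivity)]
  have h1 : 32 * T ≤ X := by have := h.TX; linarith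
  calc X * (32 * T * X ^ 900) ≤ X * (X * X ^ 900) := by
        apply mul_le_mul_of_nonneg_left _ hX.le
        exact mul_le_mul_of_nonneg_right h1 (pow_pos hX _).le
    _ = X ^ 902 := by ring
    _ ≤ X ^ 50000 := h.pw (by norm_num)
    _ ≤ b := h.bX

theorem RNF.exp3 (h : RNF X b k T n) {S : ℝ} (hS : X ^ 1000 ≤ 8 * S) :
    X ≤ S / (2000 * k) / (4 * (T * 4)) := by
  have hT := h.T1
  have hk := h.k1
  have hX := h.Xpos
  have e : S / (2000 * k) / (4 * (T * 4)) = 8 * S / (256000 * (k * T)) := by field_simp; ring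
  rw [e, le_div_iff₀ (by positivity)]
  have h1 : 256000 * (k * T) ≤ X ^ 2 := by
    have := h.kT
    have : 0 ≤ k * T := by positivity
    linarith
  calc X * (256000 * (k * T)) ≤ X * X ^ 2 := mul_le_mul_of_nonneg_left h1 hX.le
    _ = X ^ 3 := by ring
    _ ≤ X ^ 1000 := h.pw (by norm_num)
    _ ≤ 8 * S := hS

theorem RNF.exp4 (h : RNF X b k T n) :
    X ≤ 1 / X ^ 160 / (4 * (T * (24 / X ^ 990 + 16 * (k * X ^ 6010 / b)))) := by
  have hT := h.T1
  have hk := h.k1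
  have hX := h.Xpos
  have hb := h.bpos
  have h1 : 24 / X ^ 990 + 16 * (k * X ^ 6010 / b) ≤ 40 / X ^ 990 := by
    have e1 := h.q6010
    have e2 : 1 / X ^ 40000 ≤ 1 / X ^ 990 := h.cmp (i := 0) (by simp) (by norm_num)
    have e3 : 40 / X ^ 990 = 24 / X ^ 990 + 16 * (1 / X ^ 990) := by ring
    linarith
  have hpos : 0 < 24 / X ^ 990 + 16 * (k * X ^ 6010 / b) := by positivity
  rw [le_div_iff₀ (by positivity)]
  have h2 : X * (4 * (T * (24 / X ^ 990 + 16 * (k * X ^ 6010 / b)))) ≤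
      X * (4 * (T * (40 / X ^ 990))) := by
    apply mul_le_mul_of_nonneg_left _ hX.le
    apply mul_le_mul_of_nonneg_left _ (by norm_num)
    exact mul_le_mul_of_nonneg_left h1 (by linarith)
  refine le_trans h2 ?_
  have e : X * (4 * (T * (40 / X ^ 990))) = (160 * T * X) / X ^ 990 := by ring
  rw [e]
  apply h.cmp (i := 2) _ (by norm_num)
  have := h.TX
  have h3 : 160 * T ≤ X := by linarith
  calc 160 * T * X ≤ X * X := mul_le_mul_of_nonneg_right h3 hX.le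
    _ = X ^ 2 := by ring

theorem RNF.eps (h : RNF X b k T n) :
    4 * (k * X ^ 6010 / b) + 2 / X ^ 100 + 2 * (1 / X ^ 160) ≤ 1 / X ^ 99 := by
  have hX := h.Xpos
  have e1 := h.q6010
  have e2 : 1 / X ^ 40000 ≤ 1 / X ^ 100 := h.cmp (i := 0) (by simp) (by norm_num)
  have e3 : 1 / X ^ 160 ≤ 1 / X ^ 100 := h.cmp (i := 0) (by simp) (by norm_num)
  have e4 : 8 / X ^ 100 ≤ 1 / X ^ 99 :=
    h.cmp (i := 1) (by have := h.X1; rw [pow_one]; linarith) (by norm_num)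
  have e5 : 8 / X ^ 100 = 8 * (1 / X ^ 100) := by ring
  have e6 : 2 / X ^ 100 = 2 * (1 / X ^ 100) := by ring
  linarith


end Pool.Agent.Lib.MP_688fd0_co.TF.H74
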